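import Pool.Agent.Helper33.LN.PHC

/-! # Lemmas for row FF (MP_56acfd_mp) -/

set_option autoImplicit false

namespace Pool.Agent.Helper33.LN

open MeasureTheory Filter Topology Pool.Agent.Helper95.PW Pool.Agent.Helper95.LN

theorem ffa_nr_eq (y : R3) : nr y = ‖(WithLp.toLp 2 y : EuclideanSpace ℝ (Fin 3))‖ := by
  unfold nr
  rw [EuclideanSpace.norm_eq, Fin.sum_univ_three]
  simp

theorem ffa_tri (x y : R3) : nr (x + y) ≤ nr x + nr y := by
  rw [ffa_nr_eq, ffa_nr_eq, ffa_nr_eq, WithLp.toLp_add]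
  exact norm_add_le _ _

theorem ffa_tri' (x y z : R3) : nr (x - z) ≤ nr (x - y) + nr (y - z) := by
  have := ffa_tri (x - y) (y - z)
  rwa [sub_add_sub_cancel] at this

theorem ffa_comm (x y : R3) : nr (x - y) = nr (y - x) := by
  rw [← phc_nr_neg, neg_sub]

theorem ffa_pd_smooth {f : R3 → ℝ} (hf : ContDiff ℝ (⊤ : ℕ∞) f) (i : Fin 3) :
    ContDiff ℝ (⊤ : ℕ∞) (pd i f) := by
  unfold pd
  exact (hf.fderiv_right (m := (⊤ : ℕ∞)) (by simp)).clm_apply contDiff_const

theorem ffa_pd_comm {f : R3 → ℝ} (hf : ContDiff ℝ (⊤ : ℕ∞) f) (i m : Fin 3) (y : R3) :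
    pd i (pd m f) y = pd m (pd i f) y := by
  have hd : DifferentiableAt ℝ (fderiv ℝ f) y :=
    ((hf.fderiv_right (m := (⊤ : ℕ∞)) (by simp)).differentiable (by simp)) y
  have h0 : ∀ i m : Fin 3, pd i (pd m f) y =
      fderiv ℝ (fderiv ℝ f) y (Pi.single i 1) (Pi.single m 1) := by
    intro i m
    unfold pd
    rw [fderiv_clm_apply hd (differentiableAt_const _)]
    simp
  rw [h0, h0]
  have hs : IsSymmSndFDerivAt ℝ f y :=
    hf.contDiffAt.isSymmSndFDerivAt (by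
      rw [minSmoothness_of_isRCLikeNormedField]
      exact WithTop.coe_le_coe.2 (le_top : (2 : ℕ∞) ≤ ⊤))
  exact hs _ _

theorem ffa_lin {ι : Type*} [Fintype ι] {F : R3 → ℝ} (hF : ContDiff ℝ (⊤ : ℕ∞) F) (c : ι → ℝ)
    (p : ι → R3) (i : Fin 3) :
    pd i (fun w => ∑ s, c s * F (w - p s)) = fun w => ∑ s, c s * pd i F (w - p s) := by
  funext w
  unfold pd
  have hd : ∀ s, DifferentiableAt ℝ (fun w : R3 => F (w - p s)) w := fun s =>
    ((hF.comp (contDiff_id.sub contDiff_const)).differentiable (by simp)) w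
  rw [fderiv_fun_sum (fun s _ => (hd s).const_mul (c s))]
  rw [ContinuousLinearMap.sum_apply]
  refine Finset.sum_congr rfl fun s _ => ?_
  rw [fderiv_const_mul (hd s), ContinuousLinearMap.smul_apply, smul_eq_mul]
  congr 1
  rw [fderiv_comp_sub]

theorem ffa_lin_smooth {ι : Type*} [Fintype ι] {F : R3 → ℝ} (hF : ContDiff ℝ (⊤ : ℕ∞) F)
    (c : ι → ℝ) (p : ι → R3) : ContDiff ℝ (⊤ : ℕ∞) (fun w => ∑ s, c s * F (w - p s)) :=
  ContDiff.sum fun _ _ => contDiff_const.mul (hF.comp (contDiff_id.sub contDiff_const))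

theorem ffa_lap {ι : Type*} [Fintype ι] {F : R3 → ℝ} (hF : ContDiff ℝ (⊤ : ℕ∞) F) (c : ι → ℝ)
    (p : ι → R3) (w : R3) :
    lap (fun w => ∑ s, c s * F (w - p s)) w = ∑ s, c s * lap F (w - p s) := by
  unfold lap
  have h1 : ∀ i : Fin 3, pd i (pd i (fun w => ∑ s, c s * F (w - p s))) w =
      ∑ s, c s * pd i (pd i F) (w - p s) := by
    intro i
    rw [ffa_lin hF c p i, ffa_lin (ffa_pd_smooth hF i) c p i]
  rw [Finset.sum_congr rfl fun i _ => h1 i, Finset.sum_comm]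
  exact Finset.sum_congr rfl fun s _ => by rw [Finset.mul_sum]

theorem ffa_lap_pd (hA : ST_PHA) (hB : ST_PHB) (hC : ST_PHC) {b : ℝ} (hb : 0 < b) (m : Fin 3)
    (v : R3) (hv : b < nr v) : lap (pd m (ph b)) v = 0 := by
  have hf := (hA b hb).1
  have h1 : lap (pd m (ph b)) v = pd m (lap (ph b)) v := by
    unfold lap
    have h2 : ∀ i : Fin 3, pd i (pd i (pd m (ph b))) v = pd m (pd i (pd i (ph b))) v := by
      intro i
      have h3 : pd i (pd m (ph b)) = pd m (pd i (ph b)) := by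
        funext y
        exact ffa_pd_comm hf i m y
      rw [h3]
      exact ffa_pd_comm (ffa_pd_smooth hf i) i m v
    rw [Finset.sum_congr rfl fun i _ => h2 i]
    unfold pd
    have h4 : ∀ i : Fin 3, DifferentiableAt ℝ
        (fun y => fderiv ℝ (fun y => fderiv ℝ (ph b) y (Pi.single i 1)) y (Pi.single i 1)) v :=
      fun i => ((ffa_pd_smooth (ffa_pd_smooth hf i) i).differentiable (by simp)) v
    rw [fderiv_fun_sum (fun i _ => h4 i), ContinuousLinearMap.sum_apply]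
  rw [h1]
  have h5 : lap (ph b) =ᶠ[𝓝 v] fun _ => (0 : ℝ) := by
    filter_upwards [(isOpen_lt continuous_const phc_nr_cont).mem_nhds hv] with y hy
    rw [(hB b hb).1 y, ((hC.2.2.2 b hb).2.2.1) y (le_of_lt hy), neg_zero]
  unfold pd
  rw [h5.fderiv_eq]
  simp

end Pool.Agent.Helper33.LN
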