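import Pool.Agent.Helper33.LN.FA

/-! # Second part of the lemmas for row FF (MP_56acfd_mp) -/

set_option autoImplicit false

namespace Pool.Agent.Helper33.LN

open MeasureTheory Filter Topology Pool.Agent.Helper95.PW Pool.Agent.Helper95.LN

/-- the bound at one point -/
theorem ffb_point {a c1 I N0 lam kp : ℝ} {S h e : R3 → ℝ} {B : Set R3} (hlam : 0 < lam)
    (hI : ∫ w in B, S w ≤ I) (hBm : MeasurableSet B)
    (hS : Integrable S) (hS0 : ∀ w, 0 ≤ S w) (hSc : Continuous S) (hhc : Continuous h)
    (hec : Continuous e) (hes : HasCompactSupport e) (he0 : ∀ w, 0 ≤ e w) (hec1 : ∀ w, e w ≤ c1)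
    (hc1 : 0 ≤ c1) (heB : ∀ w, w ∉ B → e w = 0) (hek : ∫ w, e w = kp)
    (hh : ∀ w, |h w| ≤ Real.sqrt (S w) + N0) (hv : ∫ w, h w * e w = a) :
    |a| ≤ 1 / (2 * lam) * (c1 * I) + (lam / 2 + N0) * kp := by
  have i1 : Integrable (fun w => h w * e w) :=
    (hhc.mul hec).integrable_of_hasCompactSupport hes.mul_left
  have i2 : Integrable (fun w => S w * e w) :=
    (hSc.mul hec).integrable_of_hasCompactSupport hes.mul_left
  have i3 : Integrable e := hec.integrable_of_hasCompactSupport hes
  have h1 : |a| ≤ ∫ w, (1 / (2 * lam) * (S w * e w) + (lam / 2 + N0) * e w) := by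
    rw [← hv]
    refine (abs_integral_le_integral_abs).trans ?_
    refine integral_mono_of_nonneg (ae_of_all _ fun w => abs_nonneg _)
      ((i2.const_mul _).add (i3.const_mul _)) (ae_of_all _ fun w => ?_)
    change |h w * e w| ≤ 1 / (2 * lam) * (S w * e w) + (lam / 2 + N0) * e w
    rw [abs_mul, abs_of_nonneg (he0 w)]
    have h2 : Real.sqrt (S w) ≤ 1 / (2 * lam) * S w + lam / 2 := by
      have h3 := Real.sq_sqrt (hS0 w)
      have h4 : 0 ≤ (Real.sqrt (S w) - lam) ^ 2 := sq_nonneg _
      have h5 : 1 / (2 * lam) * S w + lam / 2 = (S w + lam ^ 2) / (2 * lam) := by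
        field_simp
      rw [h5, le_div_iff₀ (by positivity)]
      nlinarith
    have h6 : |h w| ≤ 1 / (2 * lam) * S w + lam / 2 + N0 := (hh w).trans (by linarith)
    calc |h w| * e w ≤ (1 / (2 * lam) * S w + lam / 2 + N0) * e w :=
          mul_le_mul_of_nonneg_right h6 (he0 w)
      _ = _ := by ring
  have h7 : ∫ w, S w * e w ≤ c1 * I := by
    have h8 : ∫ w, S w * e w ≤ ∫ w, B.indicator (fun w => c1 * S w) w := by
      refine integral_mono_of_nonneg (ae_of_all _ fun w => mul_nonneg (hS0 w) (he0 w))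
        ((hS.const_mul c1).indicator hBm) (ae_of_all _ fun w => ?_)
      change S w * e w ≤ B.indicator (fun w => c1 * S w) w
      by_cases hw : w ∈ B
      · rw [Set.indicator_of_mem hw, mul_comm]
        exact mul_le_mul_of_nonneg_right (hec1 w) (hS0 w)
      · rw [Set.indicator_of_notMem hw, heB w hw, mul_zero]
    rw [integral_indicator hBm, integral_const_mul] at h8
    exact h8.trans (mul_le_mul_of_nonneg_left hI hc1)
  have h9 : ∫ w, (1 / (2 * lam) * (S w * e w) + (lam / 2 + N0) * e w) =
      1 / (2 * lam) * (∫ w, S w * e w) + (lam / 2 + N0) * kp := by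
    rw [integral_add (i2.const_mul _) (i3.const_mul _), integral_const_mul, integral_const_mul,
      hek]
  rw [h9] at h1
  refine h1.trans (add_le_add ?_ le_rfl)
  exact mul_le_mul_of_nonneg_left h7 (by positivity)

/-- disjoint balls -/
theorem ffb_disj {M : ℕ} {X : Fin M → R3} {d : ℝ} (hX : Sep X d) {S : R3 → ℝ}
    (hS : Integrable S) (hS0 : ∀ w, 0 ≤ S w) :
    ∑ i, ∫ w in {w : R3 | nr (w - X i) < 2 * d}, S w ≤ ∫ w, S w := by
  have hm : ∀ i, MeasurableSet {w : R3 | nr (w - X i) < 2 * d} := fun i =>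
    (isOpen_lt (phc_nr_cont.comp (continuous_id.sub continuous_const))
      continuous_const).measurableSet
  have h1 : ∀ i, ∫ w in {w : R3 | nr (w - X i) < 2 * d}, S w =
      ∫ w, ({w : R3 | nr (w - X i) < 2 * d}).indicator S w := fun i =>
    (integral_indicator (hm i)).symm
  rw [Finset.sum_congr rfl fun i _ => h1 i, ← integral_finset_sum _ fun i _ =>
    hS.indicator (hm i)]
  refine integral_mono_of_nonneg (ae_of_all _ fun w => Finset.sum_nonneg fun i _ =>
    Set.indicator_nonneg (fun w _ => hS0 w) w) hS (ae_of_all _ fun w => ?_)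
  change ∑ i, ({w : R3 | nr (w - X i) < 2 * d}).indicator S w ≤ S w
  by_cases h : ∃ i, nr (w - X i) < 2 * d
  · obtain ⟨i, hi⟩ := h
    rw [Finset.sum_eq_single i]
    · rw [Set.indicator_of_mem (by exact hi)]
    · intro j _ hj
      refine Set.indicator_of_notMem (fun hw => ?_) _
      have hw' : nr (w - X j) < 2 * d := hw
      have h2 := hX j i hj
      have h3 := ffa_tri' (X j) w (X i)
      rw [ffa_comm (X j) w] at h3
      linarith
    · intro h; exact absurd (Finset.mem_univ i) h
  · push Not at h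
    rw [Finset.sum_eq_zero]
    · exact hS0 w
    · intro i _
      have h9 : w ∉ {w : R3 | nr (w - X i) < 2 * d} := fun hw => absurd hw (not_lt.2 (h i))
      exact Set.indicator_of_notMem h9 _

end Pool.Agent.Helper33.LN
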