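import Pool.Agent.Helper33.LN.FB

/-! # Row FF (MP_56acfd_mp): the field of the far charges -/

set_option autoImplicit false

namespace Pool.Agent.Helper33.LN

open MeasureTheory Filter Topology Pool.Agent.Helper95.PW Pool.Agent.Helper95.LN

/-- charges of `Pt` -/
noncomputable def ffc {n M : ℕ} (Z : Fin M → ℝ) : Fin n ⊕ Fin M → ℝ :=
  Sum.elim (fun _ => 1) (fun j => -Z j)

/-- minus the far charges -/
noncomputable def fff {n M : ℕ} (d : ℝ) (X : Fin M → R3) (Z : Fin M → ℝ) (x : Cf n) (i : Fin M) :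
    Fin n ⊕ Fin M → ℝ :=
  Sum.elim (fun l => if nr (x l - X i) < 3 / 2 * d then 0 else -1) (fun j => if j = i then 0 else Z j)

/-- the near charges -/
noncomputable def ffn {n M : ℕ} (d : ℝ) (X : Fin M → R3) (Z : Fin M → ℝ) (x : Cf n) (i : Fin M) :
    Fin n ⊕ Fin M → ℝ :=
  Sum.elim (fun l => if nr (x l - X i) < 3 / 2 * d then 1 else 0) (fun j => if j = i then -Z j else 0)

theorem ff_split {n M : ℕ} (d : ℝ) (X : Fin M → R3) (Z : Fin M → ℝ) (x : Cf n) (i : Fin M)
    (s : Fin n ⊕ Fin M) : fff d X Z x i s = -ffc Z s + ffn d X Z x i s := by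
  rcases s with l | j
  · unfold fff ffc ffn
    simp only [Sum.elim_inl]
    split_ifs <;> norm_num
  · unfold fff ffc ffn
    simp only [Sum.elim_inr]
    split_ifs <;> ring

theorem ff_Pt {n M : ℕ} (b : ℝ) (X : Fin M → R3) (Z : Fin M → ℝ) (x : Cf n) :
    Pt b X Z x = fun w => ∑ s, ffc Z s * ph b (w - Sum.elim x X s) := by
  funext w
  rw [Fintype.sum_sum_type]
  unfold Pt ffc
  simp only [Sum.elim_inl, Sum.elim_inr, one_mul, neg_mul, Finset.sum_neg_distrib]
  ring

theorem ff_near {n M : ℕ} {z d c : ℝ} (X : Fin M → R3) (Z : Fin M → ℝ) (x : Cf n) (i : Fin M)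
    (F : R3 → ℝ) (hF : ∀ y, |F y| ≤ c) (hZ0 : ∀ j, 0 ≤ Z j) (hZ : ∀ j, Z j ≤ z) (w : R3) :
    |∑ s, ffn d X Z x i s * F (w - Sum.elim x X s)| ≤ (cnt X (3 / 2 * d) x i + z) * c := by
  have hc : 0 ≤ c := (abs_nonneg _).trans (hF 0)
  rw [Fintype.sum_sum_type]
  unfold ffn
  simp only [Sum.elim_inl, Sum.elim_inr]
  refine (abs_add_le _ _).trans ?_
  rw [add_mul]
  refine add_le_add ?_ ?_
  · unfold cnt
    rw [Finset.sum_mul]
    refine (Finset.abs_sum_le_sum_abs _ _).trans (Finset.sum_le_sum fun l _ => ?_)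
    split_ifs
    · rw [one_mul, one_mul]
      exact hF _
    · simp
  · rw [Finset.sum_eq_single i]
    · rw [if_pos rfl, abs_mul, abs_neg, abs_of_nonneg (hZ0 i)]
      exact mul_le_mul (hZ i) (hF _) (abs_nonneg _) ((hZ0 i).trans (hZ i))
    · intro j _ hj
      rw [if_neg hj, zero_mul]
    · intro h; exact absurd (Finset.mem_univ i) h

theorem ff_far {n M : ℕ} {b d : ℝ} (hbd : b ≤ d / 8) (hd : 0 < d) {X : Fin M → R3}
    (hX : Sep X d) (Z : Fin M → ℝ) (x : Cf n) (i : Fin M) (m : Fin 3) {F : R3 → ℝ}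
    (hF : ∀ y, b ≤ nr y → F y = -(y m / nr y ^ 3)) (y : R3) (hy : nr (y - X i) ≤ d) :
    ∑ s, fff d X Z x i s * F (y - Sum.elim x X s) = farE d X Z x i m y := by
  rw [Fintype.sum_sum_type]
  unfold fff farE
  simp only [Sum.elim_inl, Sum.elim_inr]
  rw [sub_eq_add_neg, ← Finset.sum_neg_distrib]
  congr 1
  · refine Finset.sum_congr rfl fun l _ => ?_
    split_ifs with h
    · rw [zero_mul]
    · push Not at h
      have h1 := ffa_tri' (x l) y (X i)
      rw [ffa_comm (x l) y] at h1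
      rw [hF _ (by linarith)]
      simp only [Pi.sub_apply]
      ring
  · refine Finset.sum_congr rfl fun j _ => ?_
    split_ifs with h
    · simp
    · have h1 := ffa_tri' (X j) y (X i)
      rw [ffa_comm (X j) y] at h1
      have h2 := hX j i h
      rw [hF _ (by linarith)]
      simp only [Pi.sub_apply]
      ring

theorem ff_lap {n M : ℕ} (hA : ST_PHA) (hB : ST_PHB) (hC : ST_PHC) {b d : ℝ} (hb : 0 < b)
    (hbd : b ≤ d / 8) (hd : 0 < d) {X : Fin M → R3} (hX : Sep X d) (Z : Fin M → ℝ) (x : Cf n)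
    (i : Fin M) (m : Fin 3) (w : R3) (hw : nr (w - X i) ≤ 5 / 4 * d) :
    lap (fun w => ∑ s, fff d X Z x i s * pd m (ph b) (w - Sum.elim x X s)) w = 0 := by
  rw [ffa_lap (ffa_pd_smooth (hA b hb).1 m)]
  refine Finset.sum_eq_zero fun s _ => ?_
  rcases s with l | j
  · unfold fff
    simp only [Sum.elim_inl]
    split_ifs with h
    · rw [zero_mul]
    · push Not at h
      have h1 := ffa_tri' (x l) w (X i)
      rw [ffa_comm (x l) w] at h1
      rw [ffa_lap_pd hA hB hC hb m _ (by linarith), mul_zero]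
  · unfold fff
    simp only [Sum.elim_inr]
    split_ifs with h
    · rw [zero_mul]
    · have h1 := ffa_tri' (X j) w (X i)
      rw [ffa_comm (X j) w] at h1
      have h2 := hX j i h
      rw [ffa_lap_pd hA hB hC hb m _ (by linarith), mul_zero]

/-- row FF -/
theorem FF (hM : ST_MVP) (hA : ST_PHA) (hB : ST_PHB) (hC : ST_PHC) (hN : ST_NB) (hD : ST_DEX) :
    ST_FF := by
  intro z d hz hd
  obtain ⟨CN, hCN, hNB⟩ := hN z d hz hd
  obtain ⟨_, hk, ⟨Ce, hCe, hCe1⟩, hC4⟩ := hC
  set b := d / 8 with hb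
  have hb0 : 0 < b := by positivity
  set c1 := Ce / (d / 4) ^ 3 with hc1
  have hc10 : 0 < c1 := by positivity
  set K := c1 / kap + 2 + 4 / b ^ 2 with hK
  have hK0 : 0 < K := by positivity
  refine ⟨3 * K ^ 2 * (kap + CN + (z + 1) ^ 2), by positivity, ?_⟩
  intro n M X Z x hX hZ0 hZ
  obtain ⟨hDi, -⟩ := hD b n M X Z x hb0
  set S : R3 → ℝ := fun w => ∑ i, pd i (Pt b X Z x) w ^ 2 with hS
  have hS0 : ∀ w, 0 ≤ S w := fun w => Finset.sum_nonneg fun i _ => sq_nonneg _
  have hphs := (hA b hb0).1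
  have hPts : ContDiff ℝ (⊤ : ℕ∞) (Pt b X Z x) := by
    rw [ff_Pt]
    exact ffa_lin_smooth hphs _ _
  have hSc : Continuous S := by
    rw [hS]
    exact continuous_finset_sum _ fun i _ => ((ffa_pd_smooth hPts i).continuous.pow 2)
  set I : Fin M → ℝ := fun i => ∫ w in {w : R3 | nr (w - X i) < 2 * d}, S w with hI
  have hI0 : ∀ i, 0 ≤ I i := fun i => setIntegral_nonneg_of_ae (ae_of_all _ hS0)
  have hIsum : ∑ i, I i ≤ kap * Dn b X Z x := by
    refine (ffb_disj hX hDi hS0).trans (le_of_eq ?_)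
    unfold Dn
    rw [← mul_assoc, mul_one_div_cancel hk.ne', one_mul]
  refine ⟨fun i => K * (Real.sqrt (I i) + cnt X (3 / 2 * d) x i + (z + 1)), ?_, ?_⟩
  · intro i m y hy
    have hcnt : 0 ≤ cnt X (3 / 2 * d) x i := by
      unfold cnt
      exact Finset.sum_nonneg fun k _ => by split_ifs <;> norm_num
    set h : R3 → ℝ := fun w => ∑ s, fff d X Z x i s * pd m (ph b) (w - Sum.elim x X s) with hh
    have hhs : ContDiff ℝ (⊤ : ℕ∞) h := ffa_lin_smooth (ffa_pd_smooth hphs m) _ _
    have hv := (hM h y (d / 4) hhs (by positivity)).1 (fun w hw => by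
      refine ff_lap hA hB ⟨by assumption, hk, ⟨Ce, hCe, hCe1⟩, hC4⟩ hb0 le_rfl hd hX Z x i m w ?_
      have h1 := ffa_tri' w y (X i)
      linarith)
    obtain ⟨es, e0, eo, ei, en, ek⟩ := hC4 (d / 4) (by positivity)
    set e : R3 → ℝ := fun w => et (d / 4) (w - y) with he
    have hec : Continuous e := es.continuous.comp (continuous_id.sub continuous_const)
    have hes : HasCompactSupport e := by
      refine HasCompactSupport.intro (isCompact_closedBall y (d / 4)) fun w hw => ?_
      rw [mem_closedBall_iff_norm, not_le] at hw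
      exact eo _ (hw.le.trans (phc_norm_le _))
    have hek : ∫ w, e w = kap := by
      rw [he, integral_sub_right_eq_self (fun w => et (d / 4) w) y]
      exact ek
    have hp := ffb_point (a := kap * h y) (c1 := c1) (I := I i)
      (N0 := (cnt X (3 / 2 * d) x i + z) * (4 / b ^ 2)) (lam := Real.sqrt (I i) + 1) (kp := kap)
      (S := S) (h := h) (e := e) (B := {w : R3 | nr (w - X i) < 2 * d}) (by positivity) le_rfl
      (isOpen_lt (phc_nr_cont.comp (continuous_id.sub continuous_const))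
        continuous_const).measurableSet hDi hS0 hSc hhs.continuous hec hes (fun w => e0 _)
      (fun w => hCe1 _ _ (by positivity)) hc10.le (fun w hw => by
        refine eo _ ?_
        have h1 : ¬ nr (w - X i) < 2 * d := hw
        push Not at h1
        have h2 := ffa_tri' w y (X i)
        linarith) hek (fun w => by
        have h1 : h w = -pd m (Pt b X Z x) w +
            ∑ s, ffn d X Z x i s * pd m (ph b) (w - Sum.elim x X s) := by
          rw [ff_Pt, ffa_lin hphs, hh]
          simp only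
          rw [← Finset.sum_neg_distrib, ← Finset.sum_add_distrib]
          refine Finset.sum_congr rfl fun s _ => ?_
          rw [ff_split]
          ring
        rw [h1]
        refine (abs_add_le _ _).trans (add_le_add ?_ ?_)
        · rw [abs_neg]
          refine Real.abs_le_sqrt ?_
          rw [hS]
          exact Finset.single_le_sum (f := fun i => pd i (Pt b X Z x) w ^ 2)
            (fun j _ => sq_nonneg _) (Finset.mem_univ m)
        · exact ff_near X Z x i (pd m (ph b)) ((hB b hb0).2.1 m) hZ0 hZ w) hv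
    have hfar : h y = farE d X Z x i m y :=
      ff_far le_rfl hd hX Z x i m ((hB b hb0).2.2.2 m) y hy
    rw [hfar, abs_mul, abs_of_pos hk] at hp
    have hs0 := Real.sqrt_nonneg (I i)
    have hIs : I i / (Real.sqrt (I i) + 1) ≤ Real.sqrt (I i) := by
      rw [div_le_iff₀ (by positivity)]
      nlinarith [Real.sq_sqrt (hI0 i)]
    have hp2 : kap * |farE d X Z x i m y| ≤ kap * (K * (Real.sqrt (I i) +
        cnt X (3 / 2 * d) x i + (z + 1))) := by
      refine hp.trans ?_
      have h1 : 1 / (2 * (Real.sqrt (I i) + 1)) * (c1 * I i) =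
          c1 / 2 * (I i / (Real.sqrt (I i) + 1)) := by
        field_simp
      rw [h1]
      have h2 : c1 / 2 * (I i / (Real.sqrt (I i) + 1)) ≤ c1 / 2 * Real.sqrt (I i) :=
        mul_le_mul_of_nonneg_left hIs (by positivity)
      have h3 : kap * (K * (Real.sqrt (I i) + cnt X (3 / 2 * d) x i + (z + 1))) =
          (c1 + 2 * kap + 4 / b ^ 2 * kap) *
            (Real.sqrt (I i) + cnt X (3 / 2 * d) x i + (z + 1)) := by
        rw [hK]
        field_simp
      rw [h3]
      have h4 : 0 ≤ 4 / b ^ 2 * kap := by positivity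
      have h5 : 0 ≤ (c1 + 2 * kap + 4 / b ^ 2 * kap) := by positivity
      have h6 : (cnt X (3 / 2 * d) x i + z) * (4 / b ^ 2) * kap =
          (4 / b ^ 2 * kap) * (cnt X (3 / 2 * d) x i + z) := by ring
      have h7 : (c1 + 2 * kap + 4 / b ^ 2 * kap) *
            (Real.sqrt (I i) + cnt X (3 / 2 * d) x i + (z + 1)) =
          c1 * Real.sqrt (I i) + c1 * (cnt X (3 / 2 * d) x i + (z + 1)) +
          2 * kap * Real.sqrt (I i) + 2 * kap * (cnt X (3 / 2 * d) x i + z) + 2 * kap +
          (4 / b ^ 2 * kap) * (Real.sqrt (I i) + 1) +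
          (4 / b ^ 2 * kap) * (cnt X (3 / 2 * d) x i + z) := by ring
      have g1 : 0 ≤ c1 * Real.sqrt (I i) := by positivity
      have g2 : 0 ≤ c1 * (cnt X (3 / 2 * d) x i + (z + 1)) := by positivity
      have g3 : 0 ≤ kap * Real.sqrt (I i) := by positivity
      have g4 : 0 ≤ 2 * kap * (cnt X (3 / 2 * d) x i + z) := by positivity
      have g5 : 0 ≤ (4 / b ^ 2 * kap) * (Real.sqrt (I i) + 1) := by positivity
      rw [h7]
      have h8 : ((Real.sqrt (I i) + 1) / 2 + (cnt X (3 / 2 * d) x i + z) * (4 / b ^ 2)) * kap =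
          kap * Real.sqrt (I i) / 2 + kap / 2 +
            (4 / b ^ 2 * kap) * (cnt X (3 / 2 * d) x i + z) := by ring
      rw [h8]
      linarith
    exact le_of_mul_le_mul_left hp2 hk
  · have hDn0 : 0 ≤ Dn b X Z x := by
      unfold Dn
      exact mul_nonneg (by positivity) (integral_nonneg hS0)
    have hnb := hNB n M X Z x hX hZ0 hZ
    have h1 : ∀ i, (K * (Real.sqrt (I i) + cnt X (3 / 2 * d) x i + (z + 1))) ^ 2 ≤
        3 * K ^ 2 * (I i + cnt X (3 / 2 * d) x i ^ 2 + (z + 1) ^ 2) := by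
      intro i
      have h2 := Real.sq_sqrt (hI0 i)
      have h3 : (Real.sqrt (I i) + cnt X (3 / 2 * d) x i + (z + 1)) ^ 2 ≤
          3 * (I i + cnt X (3 / 2 * d) x i ^ 2 + (z + 1) ^ 2) := by
        nlinarith [sq_nonneg (Real.sqrt (I i) - cnt X (3 / 2 * d) x i),
          sq_nonneg (Real.sqrt (I i) - (z + 1)), sq_nonneg (cnt X (3 / 2 * d) x i - (z + 1))]
      calc (K * (Real.sqrt (I i) + cnt X (3 / 2 * d) x i + (z + 1))) ^ 2 =
          K ^ 2 * (Real.sqrt (I i) + cnt X (3 / 2 * d) x i + (z + 1)) ^ 2 := by ring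
        _ ≤ K ^ 2 * (3 * (I i + cnt X (3 / 2 * d) x i ^ 2 + (z + 1) ^ 2)) :=
          mul_le_mul_of_nonneg_left h3 (by positivity)
        _ = _ := by ring
    refine (Finset.sum_le_sum fun i _ => h1 i).trans ?_
    rw [← Finset.mul_sum, Finset.sum_add_distrib, Finset.sum_add_distrib, Finset.sum_const,
      Finset.card_univ, Fintype.card_fin, nsmul_eq_mul, mul_assoc (3 * K ^ 2)]
    refine mul_le_mul_of_nonneg_left ?_ (by positivity)
    have hM0 : (0 : ℝ) ≤ M := Nat.cast_nonneg M
    have h4 : (kap + CN + (z + 1) ^ 2) * (M + Dn b X Z x) =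
        kap * Dn b X Z x + CN * (M + Dn b X Z x) + M * (z + 1) ^ 2 + kap * M +
          (z + 1) ^ 2 * Dn b X Z x := by ring
    have g1 : 0 ≤ kap * M := by positivity
    have g2 : 0 ≤ (z + 1) ^ 2 * Dn b X Z x := by positivity
    rw [h4]
    linarith

end Pool.Agent.Helper33.LN
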