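import Pool.Agent.Helper95.LN.Stmts

/-! # Row PHC (MP_56acfd_mp): properties of `et` and `kap` -/

set_option autoImplicit false

namespace Pool.Agent.Helper33.LN

open MeasureTheory Filter Topology Pool.Agent.Helper95.PW Pool.Agent.Helper95.LN

theorem phc_bt_nonneg (t : ℝ) : 0 ≤ bt t :=
  mul_nonneg (Real.smoothTransition.nonneg _) (Real.smoothTransition.nonneg _)

theorem phc_bt_le (t : ℝ) : bt t ≤ 1 :=
  mul_le_one₀ (Real.smoothTransition.le_one _) (Real.smoothTransition.nonneg _)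
    (Real.smoothTransition.le_one _)

theorem phc_bt_low {t : ℝ} (h : t ≤ 1) : bt t = 0 := by
  unfold bt
  rw [Real.smoothTransition.zero_of_nonpos (by linarith), zero_mul]

theorem phc_bt_high {t : ℝ} (h : 2 ≤ t) : bt t = 0 := by
  unfold bt
  rw [Real.smoothTransition.zero_of_nonpos (x := 4 * (2 - t)) (by linarith), mul_zero]

theorem phc_bt_contDiff : ContDiff ℝ (⊤ : ℕ∞) bt := by
  unfold bt
  exact (Real.smoothTransition.contDiff.comp (by fun_prop)).mul
    (Real.smoothTransition.contDiff.comp (by fun_prop))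

theorem phc_bt_mid : bt (3 / 2) = 1 := by
  unfold bt
  rw [Real.smoothTransition.one_of_one_le (by norm_num),
    Real.smoothTransition.one_of_one_le (by norm_num), mul_one]

theorem phc_cb : 0 < cb := by
  unfold cb
  refine intervalIntegral.integral_pos (by norm_num)
    ((phc_bt_contDiff.continuous.pow 2).continuousOn) (fun x _ => sq_nonneg _)
    ⟨3 / 2, ⟨by norm_num, by norm_num⟩, ?_⟩
  rw [phc_bt_mid]
  norm_num

theorem phc_q (y : R3) : 0 ≤ y 0 ^ 2 + y 1 ^ 2 + y 2 ^ 2 := by positivity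

theorem phc_nr_sq (y : R3) : nr y ^ 2 = y 0 ^ 2 + y 1 ^ 2 + y 2 ^ 2 := by
  unfold nr
  exact Real.sq_sqrt (phc_q y)

theorem phc_nr_nonneg (y : R3) : 0 ≤ nr y := Real.sqrt_nonneg _

theorem phc_nr_cont : Continuous nr := by
  unfold nr
  fun_prop

theorem phc_norm_le (y : R3) : ‖y‖ ≤ nr y := by
  rw [pi_norm_le_iff_of_nonneg (phc_nr_nonneg y)]
  intro i
  rw [Real.norm_eq_abs]
  refine abs_le_of_sq_le_sq ?_ (phc_nr_nonneg y)
  rw [phc_nr_sq]
  fin_cases i
  · change y 0 ^ 2 ≤ _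
    nlinarith [sq_nonneg (y 1), sq_nonneg (y 2)]
  · change y 1 ^ 2 ≤ _
    nlinarith [sq_nonneg (y 0), sq_nonneg (y 2)]
  · change y 2 ^ 2 ≤ _
    nlinarith [sq_nonneg (y 0), sq_nonneg (y 1)]

theorem phc_nr_smul {a : ℝ} (ha : 0 ≤ a) (y : R3) : nr (a • y) = a * nr y := by
  have h1 : nr (a • y) ^ 2 = (a * nr y) ^ 2 := by
    rw [phc_nr_sq, mul_pow, phc_nr_sq]
    simp only [Pi.smul_apply, smul_eq_mul]
    ring
  exact (pow_left_inj₀ (phc_nr_nonneg _) (mul_nonneg ha (phc_nr_nonneg y)) two_ne_zero).1 h1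

theorem phc_nr_neg (y : R3) : nr (-y) = nr y := by
  unfold nr
  simp

theorem phc_et_nonneg {a : ℝ} (ha : 0 < a) (y : R3) : 0 ≤ et a y := by
  unfold et
  have h1 := phc_cb
  have h2 := phc_nr_nonneg y
  positivity

theorem phc_et_out {a : ℝ} (ha : 0 < a) (y : R3) (h : a ≤ nr y) : et a y = 0 := by
  unfold et
  rw [phc_bt_low (t := a / nr y)]
  · simp
  · exact (div_le_one (lt_of_lt_of_le ha h)).2 h

theorem phc_et_in {a : ℝ} (_ha : 0 < a) (y : R3) (h : nr y ≤ a / 2) : et a y = 0 := by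
  unfold et
  rcases (phc_nr_nonneg y).eq_or_lt with h0 | h0
  · rw [← h0]
    simp
  · rw [phc_bt_high (t := a / nr y)]
    · simp
    · rw [le_div_iff₀ h0]
      linarith

theorem phc_et_le {a : ℝ} (ha : 0 < a) (y : R3) : et a y ≤ 16 / cb / a ^ 3 := by
  have hcb := phc_cb
  by_cases h : nr y ≤ a / 2
  · rw [phc_et_in ha y h]
    positivity
  · push Not at h
    have h0 : 0 < nr y := lt_trans (by positivity) h
    unfold et
    have h1 : bt (a / nr y) ^ 2 ≤ 1 := pow_le_one₀ (phc_bt_nonneg _) (phc_bt_le _)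
    have h2 : (a / 2) ^ 4 ≤ nr y ^ 4 := pow_le_pow_left₀ (by positivity) h.le 4
    calc a * bt (a / nr y) ^ 2 / (cb * nr y ^ 4) ≤ a * 1 / (cb * (a / 2) ^ 4) := by
          gcongr
      _ = 16 / cb / a ^ 3 := by
          field_simp
          norm_num

theorem phc_et_contDiff {a : ℝ} (ha : 0 < a) : ContDiff ℝ (⊤ : ℕ∞) (et a) := by
  rw [contDiff_iff_contDiffAt]
  intro y
  by_cases h : nr y < a / 2
  · have h1 : et a =ᶠ[𝓝 y] fun _ => (0 : ℝ) := by
      filter_upwards [(isOpen_lt phc_nr_cont continuous_const).mem_nhds h] with z hz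
      exact phc_et_in ha z (le_of_lt hz)
    exact contDiffAt_const.congr_of_eventuallyEq h1
  · push Not at h
    have h0 : 0 < nr y := lt_of_lt_of_le (by positivity) h
    have hq : y 0 ^ 2 + y 1 ^ 2 + y 2 ^ 2 ≠ 0 := by
      rw [← phc_nr_sq]
      positivity
    have h1 : ContDiffAt ℝ (⊤ : ℕ∞) nr y := by
      unfold nr
      exact ContDiffAt.sqrt (by fun_prop) hq
    have h2 : ContDiffAt ℝ (⊤ : ℕ∞) (fun y => bt (a / nr y)) y :=
      ContDiffAt.comp y phc_bt_contDiff.contDiffAt (contDiffAt_const.div h1 h0.ne')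
    have hcb := phc_cb
    unfold et
    exact (contDiffAt_const.mul (h2.pow 2)).div (contDiffAt_const.mul (h1.pow 4))
      (by positivity)

theorem phc_et_neg (a : ℝ) (y : R3) : et a (-y) = et a y := by
  unfold et
  rw [phc_nr_neg]

theorem phc_et_scale {a : ℝ} (ha : 0 < a) (y : R3) :
    et a y = (a ^ 3)⁻¹ * et 1 (a⁻¹ • y) := by
  have hcb := phc_cb
  unfold et
  rw [phc_nr_smul (inv_pos.2 ha).le]
  rcases (phc_nr_nonneg y).eq_or_lt with h0 | h0
  · rw [← h0]
    simp
  · have h1 : 1 / (a⁻¹ * nr y) = a / nr y := by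
      field_simp
    rw [h1]
    field_simp

theorem phc_compact : HasCompactSupport (et 1) := by
  refine HasCompactSupport.intro (isCompact_closedBall (0 : R3) 1) fun y hy => ?_
  rw [mem_closedBall_zero_iff, not_le] at hy
  exact phc_et_out one_pos y (hy.le.trans (phc_norm_le y))

theorem phc_kap : 0 < kap := by
  unfold kap
  have hcb := phc_cb
  refine (phc_et_contDiff one_pos).continuous.integral_pos_of_hasCompactSupport_nonneg_nonzero
    (x := fun i : Fin 3 => if i = 0 then (2 / 3 : ℝ) else 0) phc_compact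
    (fun y => phc_et_nonneg one_pos y) ?_
  have h1 : nr (fun i : Fin 3 => if i = 0 then (2 / 3 : ℝ) else 0) = 2 / 3 := by
    unfold nr
    simp
    exact Real.sqrt_sq (by norm_num)
  unfold et
  rw [h1]
  have h2 : (1 : ℝ) / (2 / 3) = 3 / 2 := by norm_num
  rw [h2, phc_bt_mid]
  positivity

theorem phc_int {a : ℝ} (ha : 0 < a) : ∫ y, et a y = kap := by
  have h1 : (fun y => et a y) = fun y => (a ^ 3)⁻¹ * et 1 (a⁻¹ • y) := by
    funext y
    exact phc_et_scale ha y
  rw [h1, integral_const_mul]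
  have h2 := MeasureTheory.Measure.integral_comp_inv_smul (volume : Measure R3) (et 1) a
  rw [h2]
  have h3 : Module.finrank ℝ R3 = 3 := by simp
  rw [h3, abs_of_pos (by positivity), smul_eq_mul, ← mul_assoc, inv_mul_cancel₀ (by positivity),
    one_mul]
  rfl

/-- row PHC -/
theorem PHC : ST_PHC := by
  have hcb := phc_cb
  refine ⟨phc_cb, phc_kap, ⟨16 / cb, by positivity, fun a y ha => phc_et_le ha y⟩, ?_⟩
  intro a ha
  exact ⟨phc_et_contDiff ha, phc_et_nonneg ha, phc_et_out ha, phc_et_in ha, phc_et_neg a,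
    phc_int ha⟩

end Pool.Agent.Helper33.LN
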